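import Mathlib
import Pool.Agent.GEL.CDg
import Pool.Agent.GEL.AnB

open MvPolynomial
open Pool.Agent.GEL

universe u

/-- Let `k` be an algebraically closed field of characteristic 0, `p` a prime number, `n ≥ 3`,
`p a ≥ n + 2`, `p ∤ n + 1`, and `X : y^p = f(x_0, …, x_n)`, a `p`-cyclic covering of projective space
branched along `f = 0`, `deg f = p a` (if `f = 0` is smooth and `(p - 1) a ≤ n`, then `X` is a Fano
manifold of index `n + 1 - (p - 1) a`).

(1) The Klein form defines a smooth `X`; it is congruent to itself modulo a place of `k` over `p`.
(2) A form with algebraically independent coefficients is congruent to the Klein form modulo a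
place of `k` over `p`.

(3) Let `L` be an extension field of the function field `k(X)` and `V` an adapted valuation ring of
`L` (a place over `p` where `f` reduces to the Klein form, `V ∩ k(X)` is the Gauss valuation ring, and the
residue field extension is separable). Then every `L`-point of `X` which is R-equivalent to the
generic point has the same reduction as the generic point.

Let `f` be congruent to the Klein form modulo a place of `k` over `p`. (4) If `L / k(X)` is a finite
extension of degree prime to `p`, then `L` has an adapted valuation ring, and all `L`-points of `X`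
which are R-equivalent to the generic point are dominant. (5) Every rational curve on `X` over `k(X)`
through the generic point has degree divisible by `p`. (6) Every dominant rational map from affine
space of dimension `n` to `X` has degree divisible by `p`. -/
theorem Pool.Agent.Results.MP_872d76_ag.CyclicCovers.result {p n a : ℕ} (hp : p.Prime)
    (hn : 3 ≤ n) (ha : n + 2 ≤ p * a) (hpn : ¬ p ∣ n + 1) (k : Type u) [Field k] [IsAlgClosed k]
    [CharZero k] :
    -- (1)
    ((klein k n (p * a)).IsHomogeneous (p * a) ∧ NearKlein p a (klein k n (p * a)) ∧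
      ∀ x : Fin (n + 1) → k, x ≠ 0 → ∃ j, eval x (pderiv j (klein k n (p * a))) ≠ 0) ∧
    -- (2)
    (∀ f : MvPolynomial (Fin (n + 1)) k, f.IsHomogeneous (p * a) →
      (AlgebraicIndependent ℚ fun m : {m : Fin (n + 1) →₀ ℕ // m.degree = p * a} => coeff m.1 f) →
        NearKlein p a f) ∧
    ∀ f : MvPolynomial (Fin (n + 1)) k, f.IsHomogeneous (p * a) →
      -- (3)
      (∀ (L : Type u) [Field L] [Algebra k L] (P : Pt p f L) (V : ValuationSubring L),
        P.IsGeneric → Adapted a P V → ∀ P' : Pt p f L, REquiv a P P' → SameReduction a V P P') ∧
      (NearKlein p a f →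
        -- (4)
        (∀ (L : Type u) [Field L] [Algebra k L] (P : Pt p f L), P.IsGeneric →
          ¬ p ∣ Module.finrank ↥P.funField L →
            (∃ V : ValuationSubring L, Adapted a P V) ∧
              ∀ P' : Pt p f L, REquiv a P P' → P'.Dominant) ∧
        -- (5)
        (∀ (L : Type u) [Field L] [Algebra k L] (P : Pt p f L), P.IsGeneric → P.funField = ⊤ →
          ∀ (X : Fin (n + 1) → Polynomial L) (Y : Polynomial L), Y ^ p = aeval X f →
            (∀ q, (∀ i, q ∣ X i) → IsUnit q) → (∃ c : L, ∀ i, (X i).eval 0 = c * P.x i) →
              p ∣ Finset.univ.sup fun i => (X i).natDegree) ∧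
        -- (6)
        ∀ (φ : Fin (n + 1) → MvPolynomial (Fin n) k) (ψ : MvPolynomial (Fin n) k), φ 0 ≠ 0 →
          ψ ^ p = aeval φ f →
            let q := algebraMap (MvPolynomial (Fin n) k) (FractionRing (MvPolynomial (Fin n) k))
            p ∣ Module.finrank
              ↥(IntermediateField.adjoin k (insert (q ψ / q (φ 0) ^ a)
                (Set.range fun i => q (φ i) / q (φ 0))))
              (FractionRing (MvPolynomial (Fin n) k))) := by
  refine ⟨⟨klein_isHomogeneous n (by omega), near_klein n hp, fun x hx =>
    klein_smooth (by omega) (by omega) x hx⟩, fun f hf h => near_generic hp (by omega) f hf h,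
    fun f hf => ⟨fun L _ _ P V hP hV P' h => rigidity hp hn ha hpn hf hP hV P' h, fun hN =>
      ⟨fun L _ _ P hP hK => ⟨exists_adapted hp P hP hK hN, fun P' h =>
        dominant_of_requiv hp hn ha hpn hf hN P hP hK P' h⟩,
        fun L _ _ P hP hK X Y hY hcop h0 => curve_degree hp hn ha hpn hf hN P hP hK X Y hY hcop h0,
        fun φ ψ hφ hψ => affine_degree hp hn ha hpn hf hN φ ψ hφ hψ⟩⟩⟩
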