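import Mathlib
import Pool.Agent.HSI.EDg
import Pool.Agent.HSI.EAf
import Pool.Agent.HSI.DSmo

open MvPolynomial
open Pool.Agent.HSI

universe u

/-- Let `k` be an algebraically closed field of characteristic 0, `n ≥ 3`, and `X : F = 0` a hypersurface
of degree `n + 1` in `P^(n+1)` (a Fano manifold of index one and dimension `n`) whose coefficients are
algebraically independent over `ℚ`; `K = k(X)`, `P` the generic point.

(0) `X` is smooth. (1) Let `p ≤ n + 1` be a prime number and `L / K` a finite extension of degree prime to `p`. For every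
`L`-point `P'` of `X` which is R-equivalent to `P`, the image of `P'` in `X` has dimension at least
`n - 1`; and every rational curve on `X` over `L` through `P` has degree divisible by `p`.
(2) Every rational curve on `X` over `K` through `P` has degree divisible by the product of all prime
numbers `≤ n + 1`. (3) Every dominant rational map from affine space of dimension `n` to `X` has degree
divisible by the product of all prime numbers `≤ n + 1`. -/
theorem Pool.Agent.Results.MP_872d76_ag.IndexOne.result {n : ℕ} (hn : 3 ≤ n) (k : Type u) [Field k]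
    [IsAlgClosed k] [CharZero k] (F : MvPolynomial (Fin (n + 2)) k) (hF : F.IsHomogeneous (n + 1))
    (hgen : AlgebraicIndependent ℚ
      fun m : {m : Fin (n + 2) →₀ ℕ // m.degree = n + 1} => coeff m.1 F) :
    -- (0)
    (∀ x : Fin (n + 2) → k, x ≠ 0 → ∃ j, eval x (pderiv j F) ≠ 0) ∧
    -- (1)
    (∀ p : ℕ, p.Prime → p ≤ n + 1 → ∀ (L : Type u) [Field L] [Algebra k L] (P : Pt F L),
      P.IsGeneric → ¬ p ∣ Module.finrank ↥P.funField L →
        (∀ P' : Pt F L, REquiv P P' → P'.DimGE (n - 1)) ∧
        ∀ X : Fin (n + 2) → Polynomial L, aeval X F = 0 → (∀ q, (∀ i, q ∣ X i) → IsUnit q) →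
          (∃ c : L, ∀ i, (X i).eval 0 = c * P.x i) →
            p ∣ Finset.univ.sup fun i => (X i).natDegree) ∧
    -- (2)
    (∀ (L : Type u) [Field L] [Algebra k L] (P : Pt F L), P.IsGeneric → P.funField = ⊤ →
      ∀ X : Fin (n + 2) → Polynomial L, aeval X F = 0 → (∀ q, (∀ i, q ∣ X i) → IsUnit q) →
        (∃ c : L, ∀ i, (X i).eval 0 = c * P.x i) →
          primorial (n + 1) ∣ Finset.univ.sup fun i => (X i).natDegree) ∧
    -- (3)
    ∀ φ : Fin (n + 2) → MvPolynomial (Fin n) k, φ 0 ≠ 0 → aeval φ F = 0 →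
      let q := algebraMap (MvPolynomial (Fin n) k) (FractionRing (MvPolynomial (Fin n) k))
      primorial (n + 1) ∣ Module.finrank
        ↥(IntermediateField.adjoin k (Set.range fun i => q (φ i) / q (φ 0)))
        (FractionRing (MvPolynomial (Fin n) k)) := by
  obtain ⟨N, rfl⟩ : ∃ N, n = N + 1 := ⟨n - 1, by omega⟩
  have hN : 2 ≤ N := by omega
  have hprim : ∀ m : ℕ, (∀ p : ℕ, p.Prime → p ≤ N + 1 + 1 → p ∣ m) → primorial (N + 1 + 1) ∣ m := by
    intro m hm
    refine Finset.prod_primes_dvd m (fun p hp => ?_) fun p hp => ?_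
    · exact (Finset.mem_filter.1 hp).2.prime
    · refine hm p (Finset.mem_filter.1 hp).2 ?_
      have := Finset.mem_range.1 (Finset.mem_filter.1 hp).1
      omega
  have h1 : ∀ p : ℕ, p.Prime → p ≤ N + 1 + 1 → ∀ (L : Type u) [Field L] [Algebra k L]
      (P : Pt F L), P.IsGeneric → ¬ p ∣ Module.finrank ↥P.funField L →
        (∀ P' : Pt F L, REquiv P P' → P'.DimGE (N + 1 - 1)) ∧
        ∀ X : Fin (N + 1 + 2) → Polynomial L, aeval X F = 0 → (∀ q, (∀ i, q ∣ X i) → IsUnit q) →
          (∃ c : L, ∀ i, (X i).eval 0 = c * P.x i) →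
            p ∣ Finset.univ.sup fun i => (X i).natDegree := by
    intro p hp hpN L _ _ P hP hL
    obtain ⟨M, hM⟩ := exists_model hp hpN hN F hF hgen P hP hL
    exact ⟨fun P' h => dimGE M P' (ndred_requiv hN hp hpN hF M P P' h hM),
      fun X hX hcop h0 => curve_degree hp hpN hN F hF hgen P hP hL X hX hcop h0⟩
  refine ⟨smooth_of_indep F hF hgen, h1, fun L _ _ P hP hK X hX hcop h0 => hprim _ fun p hp hpN => ?_,
    fun φ hφ hφF => hprim _ fun p hp hpN => affine_degree hp hpN hN F hF hgen φ hφ hφF⟩
  refine (h1 p hp hpN L P hP ?_).2 X hX hcop h0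
  rw [hK, IntermediateField.finrank_top]
  exact hp.one_lt.ne' ∘ Nat.dvd_one.1
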